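import Pool.Agent.Lib.MP_79262d_an.Simple

open Filter Topology

namespace Pool.Agent.Lib.MP_79262d_an

/-! ### Positivity in `C(X, D)` -/

section cxd
variable {X D : Type*} [TopologicalSpace X] [CompactSpace X] [CStarAlgebra D]

lemma isPos_of_pointwise (c : C(X, D)) (h : ∀ x, IsPos (c x)) : IsPos c := by
  let _ := CStarAlgebra.spectralOrder C(X, D)
  have := CStarAlgebra.spectralOrderedRing C(X, D)
  let _ := CStarAlgebra.spectralOrder D
  have := CStarAlgebra.spectralOrderedRing D
  have hsa : IsSelfAdjoint c := by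
    ext x
    obtain ⟨d, hd⟩ := h x
    show star (c x) = c x
    rw [hd]; simp
  have key : ∀ t ∈ spectrum ℝ c, 0 ≤ t := by
    intro t ht
    rw [spectrum.mem_iff, ContinuousMap.isUnit_iff_forall_isUnit] at ht
    push Not at ht
    obtain ⟨x, hx⟩ := ht
    have hx' : t ∈ spectrum ℝ (c x) := by
      rw [spectrum.mem_iff]
      exact hx
    have h0 : @LE.le D _ 0 (c x) := isPos_iff.mp (h x)
    exact spectrum_nonneg_of_nonneg h0 hx'
  obtain ⟨s, hs₁, _, hs₂⟩ := CFC.exists_sqrt_of_isSelfAdjoint_of_quasispectrumRestricts hsa (by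
    rw [quasispectrumRestricts_iff_spectrumRestricts, SpectrumRestricts.nnreal_iff]
    exact key)
  exact ⟨s, by rw [hs₁.star_eq, hs₂]⟩

lemma cuntzLE_of_pointwise {p q : C(X, D)} (hp : ∀ x, IsPos (p x))
    (hpq : ∀ x, IsPos (q x - p x)) : CuntzLE p q := by
  let _ := CStarAlgebra.spectralOrder C(X, D)
  have := CStarAlgebra.spectralOrderedRing C(X, D)
  have h1 : @LE.le C(X, D) _ 0 p := isPos_iff.mp (isPos_of_pointwise p hp)
  have h2 : @LE.le C(X, D) _ 0 (q - p) := isPos_iff.mp (isPos_of_pointwise (q - p) hpq)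
  exact cuntzLE_of_le h1 (sub_nonneg.mp h2)

end cxd

/-! ### Minimal actions on infinite compact spaces -/

section topo
variable {G X : Type*} [Group G] [TopologicalSpace X] [CompactSpace X] [T2Space X]
  [MulAction G X] [ContinuousConstSMul G X] [MulAction.IsMinimal G X]

lemma orbit_infinite [Infinite X] (x0 : X) {U : Set X} (hU : IsOpen U) (hne : U.Nonempty) :
    (MulAction.orbit G x0 ∩ U).Infinite := by
  by_contra hfin
  rw [Set.not_infinite] at hfin
  have hdense : Dense (MulAction.orbit G x0) := MulAction.dense_orbit G x0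
  have hUF : U ⊆ MulAction.orbit G x0 ∩ U := by
    intro p hp
    by_contra hnot
    have hopen : IsOpen (U \ (MulAction.orbit G x0 ∩ U)) := hU.sdiff hfin.isClosed
    obtain ⟨q, hq, hq'⟩ := hdense.inter_open_nonempty _ hopen ⟨p, hp, hnot⟩
    exact hq.2 ⟨hq', hq.1⟩
  have hUfin : U.Finite := hfin.subset hUF
  obtain ⟨p, hp⟩ := hne
  have hpo : IsOpen ({p} : Set X) := by
    have : ({p} : Set X) = U \ (U \ {p}) := by
      rw [Set.sdiff_sdiff_right_self]
      ext z
      simp only [Set.mem_singleton_iff, Set.mem_inter_iff]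
      constructor
      · rintro rfl; exact ⟨hp, rfl⟩
      · exact fun h => h.2
    rw [this]
    exact hU.sdiff (hUfin.subset Set.sdiff_subset).isClosed
  have hdisc : ∀ x : X, IsOpen ({x} : Set X) := by
    intro x
    obtain ⟨q, hq, ⟨g, hg⟩⟩ :=
      (MulAction.dense_orbit G x).inter_open_nonempty _ hpo ⟨p, rfl⟩
    have hgp : g • x = p := by
      have : q = p := hq
      rw [← this]; exact hg
    have : ({x} : Set X) = (fun y => g • y) ⁻¹' {p} := by
      ext y
      simp only [Set.mem_singleton_iff, Set.mem_preimage]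
      constructor
      · rintro rfl; exact hgp
      · intro h
        rw [← hgp] at h
        exact MulAction.injective g h
    rw [this]
    exact hpo.preimage (continuous_const_smul g)
  have : DiscreteTopology X := discreteTopology_iff_isOpen_singleton.mpr hdisc
  have : Finite X := finite_of_compact_of_discrete
  exact not_finite X

end topo

/-! ### The main argument, in an arbitrary C*-algebra with a covariant pair -/

section order
variable {D : Type*} [CStarAlgebra D] [PartialOrder D] [StarOrderedRing D]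

lemma ge_of_close {P Q : D} {c ε : ℝ} (hP : IsSelfAdjoint P) (hQ : IsSelfAdjoint Q)
    (h : algebraMap ℝ D c ≤ P) (hclose : ‖Q - P‖ ≤ ε) : algebraMap ℝ D (c - ε) ≤ Q := by
  have hsa : IsSelfAdjoint (P - Q) := hP.sub hQ
  have h1 : P - Q ≤ algebraMap ℝ D ε := by
    calc P - Q ≤ algebraMap ℝ D ‖P - Q‖ := hsa.le_algebraMap_norm_self
      _ ≤ algebraMap ℝ D ε := by
          rw [← sub_nonneg, ← map_sub]
          rw [norm_sub_rev] at hclose
          exact algebraMap_nonneg D (by linarith)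
  rw [map_sub]
  calc algebraMap ℝ D c - algebraMap ℝ D ε ≤ P - (P - Q) := sub_le_sub h h1
    _ = Q := by abel

end order

section main
variable {G X D : Type*} [Group G] [TopologicalSpace X] [CompactSpace X] [T2Space X]
  [MulAction G X] [ContinuousConstSMul G X] [MulAction.IsMinimal G X] [Infinite X]
  [CStarAlgebra D]

/-- Data extracted from the action: finitely many group elements and elements of `D`. -/
lemma exists_data (hD : IsSimpleCStar D) (α : G →* (C(X, D) ≃⋆ₐ[ℂ] C(X, D)))
    (β : G → X → (D ≃⋆ₐ[ℂ] D)) (hαβ : LiesOver α β)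
    (hpp : Pseudoperiodic {σ | ∃ g x, σ = β g x}) {a : C(X, D)} (ha : IsPos a) (ha0 : a ≠ 0) :
    ∃ (n : ℕ) (g : Fin n → G) (t : Fin n → D) (φ : C(X, ℝ)),
      (∃ x0, φ x0 = 1) ∧
      (∀ i j, i ≠ j → ∀ x, φ ((g i)⁻¹ • x) * φ ((g j)⁻¹ • x) = 0) ∧
      ∀ x, φ x ≠ 0 → IsPos ((∑ i, t i * (α (g i)⁻¹ a x) * star (t i)) -
        algebraMap ℝ D (1 / 2)) := by
  let _ := CStarAlgebra.spectralOrder D
  have := CStarAlgebra.spectralOrderedRing D
  have hapos : ∀ x, @LE.le D _ 0 (a x) := by
    intro x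
    obtain ⟨c, hc⟩ := ha
    rw [← isPos_iff]
    exact ⟨c x, by rw [hc]; rfl⟩
  obtain ⟨x0, hx0⟩ : ∃ x0, a x0 ≠ 0 := by
    by_contra hcon
    push Not at hcon
    exact ha0 (by ext x; simpa using hcon x)
  obtain ⟨d, hd0, hdne, δ, hδ, hloc⟩ := exists_local (hapos x0) hx0
  obtain ⟨b, hbpos, hbne, -, hb⟩ := hpp d (isPos_iff.mpr hd0) hdne
  obtain ⟨n, y, hy⟩ := exists_one_le hD (isPos_iff.mp hbpos) hbne
  have hb0 : @LE.le D _ 0 b := isPos_iff.mp hbpos
  -- points
  set U : Set X := {x | ‖a x - a x0‖ < δ} with hU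
  have hUo : IsOpen U := by
    have : Continuous fun x => ‖a x - a x0‖ := by fun_prop
    exact isOpen_lt this continuous_const
  have hUne : U.Nonempty := ⟨x0, by simp [hU, hδ]⟩
  have hinf := orbit_infinite (G := G) x0 hUo hUne
  set p : Fin n → X := fun i => (hinf.natEmbedding _ (i : ℕ) : X) with hp
  have hpinj : Function.Injective p := by
    intro i j hij
    have := (hinf.natEmbedding _).injective (Subtype.ext hij)
    exact Fin.ext this
  have hpmem : ∀ i, p i ∈ MulAction.orbit G x0 ∩ U := fun i => (hinf.natEmbedding _ (i : ℕ)).2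
  choose g hg using fun i => (hpmem i).1
  have hgi : ∀ i, g i • x0 = p i := hg
  -- comparison at the point `x0`
  have hcomp : ∀ i, CuntzLE b (α (g i)⁻¹ a x0) := by
    intro i
    have e : α (g i)⁻¹ a x0 = β (g i)⁻¹ x0 (a (p i)) := by
      rw [hαβ.2, inv_inv, hgi]
    rw [e]
    have h1 : CuntzLE d (a (p i)) := hloc _ (hapos _) (hpmem i).2.le
    have h2 : CuntzLE (β (g i)⁻¹ x0 d) (β (g i)⁻¹ x0 (a (p i))) :=
      cuntzLE_map (β (g i)⁻¹ x0) (fun x => NonUnitalStarAlgHom.norm_apply_le _ x) h1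
    exact cuntzLE_trans (hb _ ⟨_, _, rfl⟩) h2
  set K : ℝ := ∑ i, ‖y i‖ * ‖y i‖ with hK
  have hK0 : 0 ≤ K := Finset.sum_nonneg fun i _ => by positivity
  choose s hs using fun i => cuntzLE_iff.mp (hcomp i) (1 / (4 * (K + 1))) (by positivity)
  set t : Fin n → D := fun i => y i * s i with ht
  -- the function `F`
  set F : X → D := fun x => ∑ i, t i * (α (g i)⁻¹ a x) * star (t i) with hF
  have hFc : Continuous F := by
    rw [hF]
    refine continuous_finsetSum _ fun i _ => ?_
    exact (continuous_const.mul (α (g i)⁻¹ a).continuous).mul continuous_const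
  have hFsa : ∀ x, IsSelfAdjoint (F x) := by
    intro x
    rw [hF, IsSelfAdjoint, star_sum]
    refine Finset.sum_congr rfl fun i _ => ?_
    have h1 : star (α (g i)⁻¹ a x) = α (g i)⁻¹ a x := by
      have h2 : star (α (g i)⁻¹ a) = α (g i)⁻¹ a := by
        obtain ⟨c, hc⟩ := ha
        rw [← map_star, hc, star_mul, star_star]
      calc star (α (g i)⁻¹ a x) = (star (α (g i)⁻¹ a)) x := rfl
        _ = _ := by rw [h2]
    rw [star_mul, star_star, star_mul, h1]
    exact (mul_assoc _ _ _).symm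
  have hF0 : algebraMap ℝ D (3 / 4) ≤ F x0 := by
    have e1 : F x0 - ∑ i, y i * b * star (y i) =
        ∑ i, y i * (s i * (α (g i)⁻¹ a x0) * star (s i) - b) * star (y i) := by
      rw [hF, ← Finset.sum_sub_distrib]
      refine Finset.sum_congr rfl fun i _ => ?_
      rw [ht]
      simp only [star_mul]
      noncomm_ring
    have hbnd : ‖F x0 - ∑ i, y i * b * star (y i)‖ ≤ 1 / 4 := by
      rw [e1]
      calc ‖∑ i, y i * (s i * (α (g i)⁻¹ a x0) * star (s i) - b) * star (y i)‖
          ≤ ∑ i, ‖y i * (s i * (α (g i)⁻¹ a x0) * star (s i) - b) * star (y i)‖ :=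
            norm_sum_le _ _
        _ ≤ ∑ i, ‖y i‖ * ‖y i‖ * (1 / (4 * (K + 1))) := by
            refine Finset.sum_le_sum fun i _ => ?_
            calc _ ≤ ‖y i * (s i * (α (g i)⁻¹ a x0) * star (s i) - b)‖ * ‖star (y i)‖ :=
                  norm_mul_le _ _
              _ ≤ ‖y i‖ * ‖s i * (α (g i)⁻¹ a x0) * star (s i) - b‖ * ‖y i‖ := by
                  rw [norm_star]
                  gcongr
                  exact norm_mul_le _ _
              _ ≤ ‖y i‖ * (1 / (4 * (K + 1))) * ‖y i‖ := by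
                  gcongr
                  exact (hs i).le
              _ = _ := by ring
        _ = K * (1 / (4 * (K + 1))) := by rw [← Finset.sum_mul]
        _ ≤ 1 / 4 := by
            rw [mul_one_div, div_le_div_iff₀ (by positivity) (by norm_num)]
            linarith
    have hPsa : IsSelfAdjoint (∑ i, y i * b * star (y i)) := by
      rw [IsSelfAdjoint, star_sum]
      refine Finset.sum_congr rfl fun i _ => ?_
      rw [star_mul, star_mul, star_star, (IsSelfAdjoint.of_nonneg hb0).star_eq, mul_assoc]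
    have := ge_of_close hPsa (hFsa x0) (by rw [map_one]; exact hy) hbnd
    have e : (1 : ℝ) - 1 / 4 = 3 / 4 := by norm_num
    rwa [e] at this
  -- the neighbourhood
  obtain ⟨W, hW, hWd⟩ := (Set.finite_range p).t2_separation
  set V : Set X := {x | ‖F x - F x0‖ < 1 / 4} ∩ ⋂ i, (fun x => g i • x) ⁻¹' (W (p i)) with hV
  have hVo : IsOpen V := by
    refine IsOpen.inter ?_ (isOpen_iInter_of_finite fun i => ?_)
    · have : Continuous fun x => ‖F x - F x0‖ := by fun_prop
      exact isOpen_lt this continuous_const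
    · exact (hW (p i)).2.preimage (continuous_const_smul (g i))
  have hx0V : x0 ∈ V := by
    refine ⟨by simp, Set.mem_iInter.mpr fun i => ?_⟩
    show g i • x0 ∈ W (p i)
    rw [hgi]
    exact (hW (p i)).1
  obtain ⟨φ, hφ0, hφ1, -⟩ := exists_continuous_zero_one_of_isClosed (s := Vᶜ) (t := {x0})
    hVo.isClosed_compl isClosed_singleton (by
      rw [Set.disjoint_singleton_right]
      exact fun h => h hx0V)
  have hφV : ∀ x, φ x ≠ 0 → x ∈ V := by
    intro x hx
    by_contra hcon
    exact hx (hφ0 hcon)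
  refine ⟨n, g, t, φ, ⟨x0, hφ1 rfl⟩, ?_, ?_⟩
  · intro i j hij x
    by_contra hne
    have h1 : φ ((g i)⁻¹ • x) ≠ 0 := left_ne_zero_of_mul hne
    have h2 : φ ((g j)⁻¹ • x) ≠ 0 := right_ne_zero_of_mul hne
    have h3 : x ∈ W (p i) := by
      have := Set.mem_iInter.mp (hφV _ h1).2 i
      simpa using this
    have h4 : x ∈ W (p j) := by
      have := Set.mem_iInter.mp (hφV _ h2).2 j
      simpa using this
    have hne' : p i ≠ p j := fun h => hij (hpinj h)
    exact Set.disjoint_left.mp (hWd ⟨i, rfl⟩ ⟨j, rfl⟩ hne') h3 h4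
  · intro x hx
    have hxV := (hφV x hx).1
    rw [isPos_iff]
    have := ge_of_close (hFsa x0) (hFsa x) hF0 (le_of_lt hxV)
    have e : (3 / 4 : ℝ) - 1 / 4 = 1 / 2 := by norm_num
    rw [e] at this
    exact sub_nonneg.mpr this

/-- The answer to Q1 in any C*-algebra `A` carrying a covariant pair `(ι, u)`. -/
theorem covariant_cuntz (hD : IsSimpleCStar D) (α : G →* (C(X, D) ≃⋆ₐ[ℂ] C(X, D)))
    (β : G → X → (D ≃⋆ₐ[ℂ] D)) (hαβ : LiesOver α β)
    (hpp : Pseudoperiodic {σ | ∃ g x, σ = β g x})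
    {A : Type*} [CStarAlgebra A] (ι : C(X, D) →⋆ₐ[ℂ] A) (u : G → A)
    (hu1 : ∀ g, star (u g) * u g = 1) (hu2 : ∀ g, u g * star (u g) = 1)
    (hcov : ∀ g b, u g * ι b * star (u g) = ι (α g b)) {a : C(X, D)} (ha : IsPos a)
    (ha0 : a ≠ 0) :
    ∃ f : C(X, ℝ), (∀ x, 0 ≤ f x) ∧ f ≠ 0 ∧ CuntzLE (ι (scal D f)) (ι a) := by
  obtain ⟨n, g, t, φ, ⟨x0, hx0⟩, hdisj, hF⟩ := exists_data hD α β hαβ hpp ha ha0
  -- notation
  set Φ : C(X, D) := scal D φ with hΦ
  set T : Fin n → C(X, D) := fun i => ContinuousMap.const X (t i) with hT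
  set F : C(X, D) := ∑ i, T i * α (g i)⁻¹ a * star (T i) with hFdef
  have hΦs : star Φ = Φ := by
    ext x
    show star (((φ x : ℝ) : ℂ) • (1 : D)) = ((φ x : ℝ) : ℂ) • (1 : D)
    simp
  have hΦc : ∀ c : C(X, D), Φ * c = c * Φ := by
    intro c
    ext x
    show (((φ x : ℝ) : ℂ) • (1 : D)) * c x = c x * (((φ x : ℝ) : ℂ) • (1 : D))
    simp
  have hFx : ∀ x, F x = ∑ i, t i * (α (g i)⁻¹ a x) * star (t i) := by
    intro x
    rw [hFdef, ContinuousMap.coe_sum, Finset.sum_apply]
    rfl
  have hΦg : ∀ i x, α (g i) Φ x = ((φ ((g i)⁻¹ • x) : ℝ) : ℂ) • (1 : D) := by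
    intro i x
    rw [hαβ.2]
    show β (g i) x (((φ ((g i)⁻¹ • x) : ℝ) : ℂ) • (1 : D)) = _
    rw [map_smul, map_one]
  -- the element `w`
  set w : A := ∑ i, ι (Φ * T i) * star (u (g i)) with hw
  have hιΦ : ∀ i, ι Φ * star (u (g i)) = star (u (g i)) * ι (α (g i) Φ) := by
    intro i
    rw [← hcov, ← mul_assoc, ← mul_assoc, hu1, one_mul]
  have hιΦ' : ∀ i, u (g i) * ι Φ = ι (α (g i) Φ) * u (g i) := by
    intro i
    rw [← hcov, mul_assoc, hu1, mul_one]
  have hoff : ∀ i j, i ≠ j → (ι (Φ * T i) * star (u (g i))) * ι a *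
      star (ι (Φ * T j) * star (u (g j))) = 0 := by
    intro i j hij
    have hzero : α (g i) Φ * a * α (g j) Φ = 0 := by
      ext x
      show α (g i) Φ x * a x * α (g j) Φ x = 0
      rw [hΦg, hΦg]
      have h1 := hdisj i j hij x
      have h2 : ((φ ((g i)⁻¹ • x) : ℝ) : ℂ) * ((φ ((g j)⁻¹ • x) : ℝ) : ℂ) = 0 := by
        exact_mod_cast h1
      simp only [smul_mul_assoc, one_mul, mul_smul_comm, mul_one, smul_smul]
      rw [mul_comm, h2, zero_smul]
    have e1 : ι (Φ * T i) = ι (T i) * ι Φ := by rw [hΦc, map_mul]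
    have e2 : star (ι (Φ * T j) * star (u (g j))) = u (g j) * ι Φ * ι (star (T j)) := by
      rw [star_mul, star_star, ← map_star, star_mul, hΦs, ← hΦc, map_mul, mul_assoc]
    rw [e1, e2]
    calc ι (T i) * ι Φ * star (u (g i)) * ι a * (u (g j) * ι Φ * ι (star (T j)))
        = ι (T i) * (ι Φ * star (u (g i))) * ι a * (u (g j) * ι Φ) * ι (star (T j)) := by
          noncomm_ring
      _ = ι (T i) * star (u (g i)) * (ι (α (g i) Φ) * ι a * ι (α (g j) Φ)) * u (g j) *
            ι (star (T j)) := by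
          rw [hιΦ, hιΦ']; noncomm_ring
      _ = 0 := by rw [← map_mul, ← map_mul, hzero, map_zero]; simp
  have hdiag : ∀ i, (ι (Φ * T i) * star (u (g i))) * ι a *
      star (ι (Φ * T i) * star (u (g i))) = ι (Φ * Φ * (T i * α (g i)⁻¹ a * star (T i))) := by
    intro i
    have e1 : star (u (g i)) * ι a * u (g i) = ι (α (g i)⁻¹ a) := by
      have h1 : α (g i) (α (g i)⁻¹ a) = a := by
        rw [← StarAlgEquiv.mul_apply, ← map_mul, mul_inv_cancel, map_one,
          StarAlgEquiv.one_apply]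
      have h2 := hcov (g i) (α (g i)⁻¹ a)
      rw [h1] at h2
      rw [← h2]
      calc star (u (g i)) * (u (g i) * ι (α (g i)⁻¹ a) * star (u (g i))) * u (g i)
          = (star (u (g i)) * u (g i)) * ι (α (g i)⁻¹ a) * (star (u (g i)) * u (g i)) := by
            noncomm_ring
        _ = _ := by rw [hu1]; simp
    have e2 : star (ι (Φ * T i) * star (u (g i))) = u (g i) * ι (star (T i) * Φ) := by
      rw [star_mul, star_star, ← map_star, star_mul, hΦs]
    rw [e2]
    calc ι (Φ * T i) * star (u (g i)) * ι a * (u (g i) * ι (star (T i) * Φ))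
        = ι (Φ * T i) * (star (u (g i)) * ι a * u (g i)) * ι (star (T i) * Φ) := by
          noncomm_ring
      _ = ι (Φ * T i * α (g i)⁻¹ a * (star (T i) * Φ)) := by rw [e1, ← map_mul, ← map_mul]
      _ = _ := by
          congr 1
          calc Φ * T i * α (g i)⁻¹ a * (star (T i) * Φ)
              = Φ * (T i * α (g i)⁻¹ a * star (T i)) * Φ := by noncomm_ring
            _ = _ := by rw [mul_assoc, ← hΦc, ← mul_assoc]
  have hww : w * ι a * star w = ι (Φ * Φ * F) := by
    rw [hw, star_sum, Finset.sum_mul, Finset.sum_mul, hFdef, Finset.mul_sum, map_sum]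
    refine Finset.sum_congr rfl fun i _ => ?_
    rw [Finset.mul_sum, Finset.sum_eq_single i]
    · exact hdiag i
    · intro j _ hji
      exact hoff i j (Ne.symm hji)
    · simp
  -- the function `f`
  set f : C(X, ℝ) := ⟨fun x => φ x * φ x * (1 / 2), by fun_prop⟩ with hf
  have hfx : ∀ x, f x = φ x * φ x * (1 / 2) := fun x => rfl
  refine ⟨f, fun x => ?_, ?_, ?_⟩
  · rw [hfx]; nlinarith [mul_self_nonneg (φ x)]
  · intro h
    have := DFunLike.congr_fun h x0
    rw [hfx, hx0] at this
    norm_num at this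
  · have h1 : CuntzLE (scal D f) (Φ * Φ * F) := by
      refine cuntzLE_of_pointwise (fun x => ?_) (fun x => ?_)
      · -- `f x ≥ 0`
        refine ⟨((Real.sqrt (f x) : ℝ) : ℂ) • (1 : D), ?_⟩
        have h0 : 0 ≤ f x := by rw [hfx]; nlinarith [mul_self_nonneg (φ x)]
        show ((f x : ℝ) : ℂ) • (1 : D) = _
        simp only [star_smul, star_one, smul_mul_smul_comm, mul_one]
        congr 1
        rw [RCLike.star_def, Complex.conj_ofReal, ← Complex.ofReal_mul, Real.mul_self_sqrt h0]
      · by_cases hφ : φ x = 0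
        · refine ⟨0, ?_⟩
          show (((φ x : ℝ) : ℂ) • (1 : D)) * (((φ x : ℝ) : ℂ) • (1 : D)) * F x -
            ((f x : ℝ) : ℂ) • (1 : D) = _
          rw [hfx, hφ]
          simp
        · obtain ⟨c, hc⟩ := hF x hφ
          refine ⟨((φ x : ℝ) : ℂ) • c, ?_⟩
          show (((φ x : ℝ) : ℂ) • (1 : D)) * (((φ x : ℝ) : ℂ) • (1 : D)) * F x -
            ((f x : ℝ) : ℂ) • (1 : D) = _
          rw [← hFx] at hc
          have e1 : star (((φ x : ℝ) : ℂ) • c) * (((φ x : ℝ) : ℂ) • c) =
              (((φ x : ℝ) : ℂ) * ((φ x : ℝ) : ℂ)) • (star c * c) := by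
            rw [star_smul, smul_mul_smul_comm, RCLike.star_def, Complex.conj_ofReal]
          rw [e1, ← hc, hfx, smul_sub]
          have e2 : (((φ x : ℝ) : ℂ) * ((φ x : ℝ) : ℂ)) • algebraMap ℝ D (1 / 2) =
              ((φ x * φ x * (1 / 2) : ℝ) : ℂ) • (1 : D) := by
            rw [Algebra.algebraMap_eq_smul_one, ← Complex.coe_smul, smul_smul]
            congr 1
            push_cast
            ring
          rw [e2]
          simp only [smul_mul_assoc, one_mul, smul_smul]
    have h2 : CuntzLE (ι (scal D f)) (ι (Φ * Φ * F)) :=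
      cuntzLE_map ι (fun x => NonUnitalStarAlgHom.norm_apply_le _ x) h1
    rw [← hww] at h2
    exact cuntzLE_trans h2 (cuntzLE_conj _ _)

end main

end Pool.Agent.Lib.MP_79262d_an
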