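import Pool.Agent.Lib.MP_79262d_an.Covariant

open Filter Topology

namespace Pool.Agent.Lib.MP_79262d_an

section reg
variable {G H : Type*} [Group G] [NormedAddCommGroup H] [InnerProductSpace ℂ H]

/-- The translation operators as continuous linear maps. -/
noncomputable def transC (h : G) : Ell2 G H →L[ℂ] Ell2 G H :=
  monomialOp (Equiv.mulLeft h⁻¹) (fun _ => ContinuousLinearMap.id ℂ H) 1 zero_le_one
    (fun _ => ContinuousLinearMap.norm_id_le)

lemma transC_apply (h : G) (ξ : Ell2 G H) (g : G) :
    (transC h ξ : G → H) g = ξ (h⁻¹ * g) := rfl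

omit [Group G] in
lemma ext_op {S T : Ell2 G H →L[ℂ] Ell2 G H}
    (h : ∀ ξ : Ell2 G H, ∀ g, (S ξ : G → H) g = (T ξ : G → H) g) : S = T := by
  ext ξ g
  exact h ξ g

lemma transC_mul (h k : G) : transC (H := H) h * transC k = transC (h * k) := by
  apply ext_op
  intro ξ g
  show (transC k ξ : G → H) (h⁻¹ * g) = _
  rw [transC_apply, transC_apply, mul_inv_rev, mul_assoc]

lemma transC_one : transC (H := H) (1 : G) = 1 := by
  apply ext_op
  intro ξ g
  rw [transC_apply]
  simp

variable [CompleteSpace H]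

lemma star_transC (h : G) : star (transC (H := H) h) = transC h⁻¹ := by
  rw [ContinuousLinearMap.star_eq_adjoint, eq_comm, ContinuousLinearMap.eq_adjoint_iff]
  intro ξ η
  rw [lp.inner_eq_tsum, lp.inner_eq_tsum]
  simp only [transC_apply, inv_inv]
  rw [← (Equiv.mulLeft h).tsum_eq fun g => inner ℂ (ξ g) (η (h⁻¹ * g))]
  simp

variable {B : Type*} [CStarAlgebra B]

/-- The operators `π_α(b)` as continuous linear maps. -/
noncomputable def regC (α : CStarAction G B) (π : Rep B H) (b : B) :
    Ell2 G H →L[ℂ] Ell2 G H :=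
  monomialOp (Equiv.refl G) (fun g => π (α g⁻¹ b)) ‖b‖ (norm_nonneg _)
    (fun g => (NonUnitalStarAlgHom.norm_apply_le π _).trans
      (NonUnitalStarAlgHom.norm_apply_le (α g⁻¹) b))

lemma regC_apply (α : CStarAction G B) (π : Rep B H) (b : B) (ξ : Ell2 G H)
    (g : G) : (regC α π b ξ : G → H) g = π (α g⁻¹ b) (ξ g) := rfl

lemma star_regC (α : CStarAction G B) (π : Rep B H) (b : B) :
    star (regC α π b) = regC α π (star b) := by
  rw [ContinuousLinearMap.star_eq_adjoint, eq_comm, ContinuousLinearMap.eq_adjoint_iff]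
  intro ξ η
  rw [lp.inner_eq_tsum, lp.inner_eq_tsum]
  congr 1
  ext g
  rw [regC_apply, regC_apply, map_star, map_star, ContinuousLinearMap.star_eq_adjoint,
    ContinuousLinearMap.adjoint_inner_left]

/-- The regular representation of `B` as a *-homomorphism. -/
noncomputable def regHom (α : CStarAction G B) (π : Rep B H) :
    B →⋆ₐ[ℂ] (Ell2 G H →L[ℂ] Ell2 G H) where
  toFun := regC α π
  map_one' := by
    apply ext_op; intro ξ g
    rw [regC_apply, map_one, map_one]; rfl
  map_mul' b c := by
    apply ext_op; intro ξ g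
    show _ = (regC α π b (regC α π c ξ) : G → H) g
    rw [regC_apply, regC_apply, regC_apply, map_mul, map_mul]; rfl
  map_zero' := by
    apply ext_op; intro ξ g
    rw [regC_apply, map_zero, map_zero]; rfl
  map_add' b c := by
    apply ext_op; intro ξ g
    show _ = ((regC α π b ξ + regC α π c ξ : Ell2 G H) : G → H) g
    rw [lp.coeFn_add, Pi.add_apply, regC_apply, regC_apply, regC_apply, map_add, map_add]; rfl
  commutes' r := by
    apply ext_op; intro ξ g
    rw [regC_apply]
    have h1 : α g⁻¹ (algebraMap ℂ B r) = algebraMap ℂ B r := by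
      rw [Algebra.algebraMap_eq_smul_one, map_smul, map_one]
    rw [h1, AlgHomClass.commutes]
    rfl
  map_star' b := (star_regC α π b).symm

lemma regHom_apply (α : CStarAction G B) (π : Rep B H) (b : B) :
    regHom α π b = regC α π b := rfl

lemma subset_cstarGen {A : Type*} [CStarAlgebra A] (S : Set A) : S ⊆ cstarGen S :=
  fun _ hx => StarSubalgebra.le_topologicalClosure _ (StarAlgebra.subset_adjoin ℂ S hx)

lemma isClosed_cstarGen {A : Type*} [CStarAlgebra A] (S : Set A) :
    IsClosed (cstarGen S : Set A) :=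
  StarSubalgebra.isClosed_topologicalClosure _

lemma transOp_mem (α : CStarAction G B) (π : Rep B H) (h : G) :
    transOp h ∈ redCrossed α π :=
  subset_cstarGen _ (Or.inr ⟨h, rfl⟩)

lemma regOp_mem (α : CStarAction G B) (π : Rep B H) (b : B) :
    regOp α π b ∈ redCrossed α π :=
  subset_cstarGen _ (Or.inl ⟨b, rfl⟩)

/-- The regular representation as a *-homomorphism into `BddEll2 G H`. -/
noncomputable def regHomB (α : CStarAction G B) (π : Rep B H) :
    B →⋆ₐ[ℂ] BddEll2 G H where
  toFun := regOp α π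
  map_one' := map_one (regHom α π)
  map_mul' := map_mul (regHom α π)
  map_zero' := map_zero (regHom α π)
  map_add' := map_add (regHom α π)
  commutes' := AlgHomClass.commutes (regHom α π)
  map_star' := map_star (regHom α π)

lemma covarianceC (α : CStarAction G B) (π : Rep B H) (h : G) (b : B) :
    transC (H := H) h * regC α π b * star (transC (H := H) h) = regC α π (α h b) := by
  rw [star_transC]
  apply ext_op
  intro ξ g
  show (regC α π b (transC h⁻¹ ξ) : G → H) (h⁻¹ * g) = _
  rw [regC_apply, transC_apply, regC_apply, inv_inv, mul_inv_cancel_left, mul_inv_rev,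
    inv_inv, map_mul, StarAlgEquiv.mul_apply]

/-- The covariance relation. -/
lemma covariance (α : CStarAction G B) (π : Rep B H) (h : G) (b : B) :
    transOp (H := H) h * regOp α π b * star (transOp (H := H) h) = regOp α π (α h b) :=
  covarianceC α π h b

lemma star_transOp_mul_self (h : G) :
    star (transOp (H := H) h) * transOp (H := H) h = 1 := by
  have h1 : star (transC (H := H) h) * transC (H := H) h = 1 := by
    rw [star_transC, transC_mul, inv_mul_cancel, transC_one]
  exact h1

lemma transOp_mul_star_self (h : G) :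
    transOp (H := H) h * star (transOp (H := H) h) = 1 := by
  have h1 : transC (H := H) h * star (transC (H := H) h) = 1 := by
    rw [star_transC, transC_mul, mul_inv_cancel, transC_one]
  exact h1

end reg

/-- The covariant comparison theorem relative to a C*-subalgebra `S` containing the covariant
pair. -/
theorem covariant_cuntz_in {G X D : Type*} [Group G] [TopologicalSpace X] [CompactSpace X]
    [T2Space X] [MulAction G X] [ContinuousConstSMul G X] [MulAction.IsMinimal G X] [Infinite X]
    [CStarAlgebra D] (hD : IsSimpleCStar D) (α : G →* (C(X, D) ≃⋆ₐ[ℂ] C(X, D)))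
    (β : G → X → (D ≃⋆ₐ[ℂ] D)) (hαβ : LiesOver α β)
    (hpp : Pseudoperiodic {σ | ∃ g x, σ = β g x})
    {A : Type*} [CStarAlgebra A] (S : StarSubalgebra ℂ A) (hS : IsClosed (S : Set A))
    (ι : C(X, D) →⋆ₐ[ℂ] A) (hι : ∀ b, ι b ∈ S) (u : G → A) (hu : ∀ g, u g ∈ S)
    (hu1 : ∀ g, star (u g) * u g = 1) (hu2 : ∀ g, u g * star (u g) = 1)
    (hcov : ∀ g b, u g * ι b * star (u g) = ι (α g b)) {a : C(X, D)} (ha : IsPos a)
    (ha0 : a ≠ 0) :
    ∃ f : C(X, ℝ), (∀ x, 0 ≤ f x) ∧ f ≠ 0 ∧ CuntzLEIn S (ι (scal D f)) (ι a) := by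
  have : IsClosed (S : Set A) := hS
  obtain ⟨f, hf, hf0, r, hr⟩ := covariant_cuntz hD α β hαβ hpp (A := S)
    (StarAlgHom.codRestrict ι S hι) (fun g => ⟨u g, hu g⟩) (fun g => Subtype.ext (hu1 g))
    (fun g => Subtype.ext (hu2 g)) (fun g b => Subtype.ext (hcov g b)) ha ha0
  exact ⟨f, hf, hf0, fun n => r n, fun n => (r n).2, hr⟩

/-- Q1 for infinite `X`. -/
theorem main_positive {G X D H : Type*} [Group G] [TopologicalSpace X] [CompactSpace X]
    [T2Space X] [MulAction G X] [ContinuousConstSMul G X] [MulAction.IsMinimal G X] [Infinite X]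
    [CStarAlgebra D] [NormedAddCommGroup H] [InnerProductSpace ℂ H] [CompleteSpace H]
    (hD : IsSimpleCStar D) (α : G →* (C(X, D) ≃⋆ₐ[ℂ] C(X, D)))
    (β : G → X → (D ≃⋆ₐ[ℂ] D)) (hαβ : LiesOver α β)
    (hpp : Pseudoperiodic {σ | ∃ g x, σ = β g x})
    (π : C(X, D) →⋆ₐ[ℂ] (H →L[ℂ] H)) {a : C(X, D)} (ha : IsPos a) (ha0 : a ≠ 0) :
    ∃ f : C(X, ℝ), (∀ x, 0 ≤ f x) ∧ f ≠ 0 ∧
      CrossedLE α π (scal D f) a :=
  covariant_cuntz_in hD α β hαβ hpp (redCrossed α π) (isClosed_cstarGen _) (regHomB α π)
    (regOp_mem α π) transOp (transOp_mem α π) star_transOp_mul_self transOp_mul_star_self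
    (covariance α π) ha ha0

/-! ### The degenerate case: `G` trivial and `X` a point -/

section trivialG
variable {G H : Type*} [Group G] [Subsingleton G] [NormedAddCommGroup H] [InnerProductSpace ℂ H]
  [CompleteSpace H] {B : Type*} [CStarAlgebra B]

omit [Subsingleton G] in
lemma regHom_injective [DecidableEq G] (α : CStarAction G B) (π : Rep B H)
    (hπ : Function.Injective π) : Function.Injective (regHom α π) := by
  intro b c hbc
  apply hπ
  ext v
  have h := congrArg (fun T : Ell2 G H →L[ℂ] Ell2 G H =>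
    (T (lp.single 2 (1 : G) v) : G → H) 1) hbc
  simp only [regHom_apply, regC_apply, inv_one, map_one, StarAlgEquiv.one_apply,
    lp.single_apply_self] at h
  exact h

omit [Subsingleton G] in
lemma regHomB_injective [DecidableEq G] (α : CStarAction G B) (π : Rep B H)
    (hπ : Function.Injective π) : Function.Injective (regHomB α π) :=
  regHom_injective α π hπ

lemma cstarGen_le_range {A : Type*} [CStarAlgebra A] (φ : B →⋆ₐ[ℂ] A)
    (hφ : Function.Injective φ) {S : Set A} (hS : ∀ x ∈ S, x ∈ φ.range) :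
    cstarGen S ≤ φ.range := by
  apply StarSubalgebra.topologicalClosure_minimal
  · exact StarAlgebra.adjoin_le hS
  · have hiso : Isometry φ := NonUnitalStarAlgHom.isometry φ hφ
    exact hiso.isClosedEmbedding.isClosed_range

lemma redCrossed_le_range (α : CStarAction G B) (π : Rep B H)
    (hπ : Function.Injective π) : redCrossed α π ≤ (regHomB α π).range := by
  classical
  refine cstarGen_le_range _ (regHomB_injective α π hπ) ?_
  rintro T (⟨b, rfl⟩ | ⟨h, rfl⟩)
  · exact ⟨b, rfl⟩
  · have : h = 1 := Subsingleton.elim _ _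
    have h2 : transOp (H := H) (1 : G) = 1 := transC_one
    rw [this, h2]
    exact one_mem _

end trivialG

end Pool.Agent.Lib.MP_79262d_an
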