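import Pool.Agent.Lib.MP_79262d_an.Defs

open Filter Topology

namespace Pool.Agent.Lib.MP_79262d_an

section general

variable {B : Type*} [CStarAlgebra B]

lemma cuntzLE_iff {a b : B} :
    CuntzLE a b ↔ ∀ ε : ℝ, 0 < ε → ∃ r : B, ‖r * b * star r - a‖ < ε := by
  constructor
  · rintro ⟨r, hr⟩ ε hε
    obtain ⟨n, hn⟩ := ((Metric.tendsto_atTop.mp hr) ε hε)
    have := hn n le_rfl
    rw [Real.dist_eq, sub_zero, abs_of_nonneg (norm_nonneg _)] at this
    exact ⟨r n, this⟩
  · intro h
    choose r hr using fun n : ℕ => h (1 / ((n : ℝ) + 1)) Nat.one_div_pos_of_nat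
    refine ⟨r, ?_⟩
    refine squeeze_zero (fun n => norm_nonneg _) (fun n => (hr n).le) ?_
    exact tendsto_one_div_add_atTop_nhds_zero_nat

lemma cuntzLE_conj (b r : B) : CuntzLE (r * b * star r) b :=
  cuntzLE_iff.mpr fun ε hε => ⟨r, by simpa using hε⟩

lemma cuntzLE_trans {a b c : B} (hab : CuntzLE a b) (hbc : CuntzLE b c) :
    CuntzLE a c := by
  rw [cuntzLE_iff] at *
  intro ε hε
  obtain ⟨r, hr⟩ := hab (ε / 2) (by positivity)
  have hK : 0 < ‖r‖ * ‖r‖ + 1 := by positivity
  obtain ⟨s, hs⟩ := hbc (ε / (2 * (‖r‖ * ‖r‖ + 1))) (by positivity)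
  refine ⟨r * s, ?_⟩
  have e : r * s * c * star (r * s) - a =
      r * (s * c * star s - b) * star r + (r * b * star r - a) := by
    rw [star_mul]
    noncomm_ring
  rw [e]
  calc ‖r * (s * c * star s - b) * star r + (r * b * star r - a)‖
      ≤ ‖r * (s * c * star s - b) * star r‖ + ‖r * b * star r - a‖ := norm_add_le _ _
    _ ≤ ‖r‖ * ‖s * c * star s - b‖ * ‖r‖ + ‖r * b * star r - a‖ := by
        gcongr
        calc ‖r * (s * c * star s - b) * star r‖ ≤ ‖r * (s * c * star s - b)‖ * ‖star r‖ :=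
              norm_mul_le _ _
          _ ≤ ‖r‖ * ‖s * c * star s - b‖ * ‖r‖ := by
              rw [norm_star]
              gcongr
              exact norm_mul_le _ _
    _ < ε := by
        have h1 : ‖r‖ * ‖s * c * star s - b‖ * ‖r‖ ≤
            (‖r‖ * ‖r‖) * (ε / (2 * (‖r‖ * ‖r‖ + 1))) := by
          have : ‖r‖ * ‖s * c * star s - b‖ * ‖r‖ = (‖r‖ * ‖r‖) * ‖s * c * star s - b‖ := by ring
          rw [this]
          exact mul_le_mul_of_nonneg_left hs.le (by positivity)
        have h2 : (‖r‖ * ‖r‖) * (ε / (2 * (‖r‖ * ‖r‖ + 1))) ≤ ε / 2 := by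
          rw [mul_div_assoc', div_le_div_iff₀ (by positivity) (by norm_num)]
          have : 0 ≤ ‖r‖ * ‖r‖ := by positivity
          nlinarith
        linarith

lemma cuntzLE_map {C F : Type*} [CStarAlgebra C] [FunLike F B C] [RingHomClass F B C]
    [StarHomClass F B C] (φ : F) (hφ : ∀ x, ‖φ x‖ ≤ ‖x‖) {a b : B} (h : CuntzLE a b) :
    CuntzLE (φ a) (φ b) := by
  rw [cuntzLE_iff] at *
  intro ε hε
  obtain ⟨r, hr⟩ := h ε hε
  refine ⟨φ r, lt_of_le_of_lt ?_ hr⟩
  rw [← map_star, ← map_mul, ← map_mul, ← map_sub]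
  exact hφ _

end general

section ordered

variable {B : Type*} [CStarAlgebra B] [PartialOrder B] [StarOrderedRing B]

lemma isPos_iff {b : B} : IsPos b ↔ 0 ≤ b := by
  rw [CStarAlgebra.nonneg_iff_eq_star_mul_self]
  rfl

/-- `0 ≤ p ≤ q` implies `p ≾ q`. -/
lemma cuntzLE_of_le {p q : B} (hp : 0 ≤ p) (hpq : p ≤ q) : CuntzLE p q := by
  rw [cuntzLE_iff]
  intro ε hε
  have hq : 0 ≤ q := hp.trans hpq
  have hqsa : IsSelfAdjoint q := IsSelfAdjoint.of_nonneg hq
  set δ := ε / 4 with hδ
  have hδ0 : 0 < δ := by positivity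
  -- functions
  set f : ℝ → ℝ := fun t => Real.sqrt t / (|t| + δ) with hf
  have hfc : Continuous f := by
    apply Real.continuous_sqrt.div (by fun_prop)
    intro t
    have := abs_nonneg t
    linarith
  set g : ℝ → ℝ := fun t => Real.sqrt (1 - f t * t * f t) with hg
  have hgc : Continuous g := by
    apply Real.continuous_sqrt.comp
    fun_prop
  set h := cfc f q with hh
  set d := cfc g q with hd
  have hhsa : IsSelfAdjoint h := cfc_predicate f q
  have hdsa : IsSelfAdjoint d := cfc_predicate g q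
  have hspec : ∀ t ∈ spectrum ℝ q, 0 ≤ t := fun t ht => spectrum_nonneg_of_nonneg hq ht
  have hle1 : ∀ t : ℝ, 0 ≤ t → f t * t * f t ≤ 1 := by
    intro t ht
    have e : f t * t * f t = (t / (t + δ)) ^ 2 := by
      simp only [hf, abs_of_nonneg ht]
      have := Real.mul_self_sqrt ht
      field_simp
      nlinarith
    rw [e]
    apply pow_le_one₀ (by positivity)
    rw [div_le_one (by positivity)]
    linarith
  have hqid : cfc (fun t : ℝ => t) q = q := cfc_id' ℝ q
  have hhqh : h * q * h = cfc (fun t => f t * t * f t) q := by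
    conv_lhs => rw [← hqid]
    rw [hh, ← cfc_mul (fun t => f t) (fun t => t) q (by fun_prop) (by fun_prop),
      ← cfc_mul (fun t => f t * t) f q (by fun_prop) (by fun_prop)]
  have hdd : d * d = 1 - h * q * h := by
    rw [hhqh, hd, ← cfc_mul g g q (by fun_prop) (by fun_prop)]
    have : (1 : B) = cfc (fun _ : ℝ => (1 : ℝ)) q := (cfc_const_one ℝ q).symm
    rw [this, ← cfc_sub (fun _ => (1 : ℝ)) (fun t => f t * t * f t) q (by fun_prop) (by fun_prop)]
    apply cfc_congr
    intro t ht
    simp only [hg]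
    exact Real.mul_self_sqrt (by linarith [hle1 t (hspec t ht)])
  set w := CFC.sqrt p with hw
  have hwnn : 0 ≤ w := CFC.sqrt_nonneg p
  have hwsa : IsSelfAdjoint w := IsSelfAdjoint.of_nonneg hwnn
  have hww : w * w = p := CFC.sqrt_mul_sqrt_self p hp
  refine ⟨w * h, ?_⟩
  have e1 : w * h * q * star (w * h) - p = -(w * (d * d) * w) := by
    rw [hdd, star_mul, hhsa.star_eq, hwsa.star_eq, mul_sub, sub_mul, mul_one, hww]
    noncomm_ring
  rw [e1, norm_neg]
  have e2 : w * (d * d) * w = star (d * w) * (d * w) := by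
    rw [star_mul, hdsa.star_eq, hwsa.star_eq]; noncomm_ring
  have e3 : (d * w) * star (d * w) = d * p * d := by
    rw [star_mul, hdsa.star_eq, hwsa.star_eq, ← hww]; noncomm_ring
  have e4 : ‖star (d * w) * (d * w)‖ = ‖(d * w) * star (d * w)‖ := by
    rw [CStarRing.norm_star_mul_self, CStarRing.norm_self_mul_star]
  rw [e2, e4, e3]
  have h5 : d * p * d ≤ d * q * d := by
    have := star_left_conjugate_le_conjugate hpq d
    rwa [hdsa.star_eq] at this
  have h6 : 0 ≤ d * p * d := by
    have := star_left_conjugate_nonneg hp d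
    rwa [hdsa.star_eq] at this
  have h7 : ‖d * p * d‖ ≤ ‖d * q * d‖ := CStarAlgebra.norm_le_norm_of_nonneg_of_le h6 h5
  have h8 : d * q * d = cfc (fun t => g t * t * g t) q := by
    conv_lhs => rw [← hqid]
    rw [hd, ← cfc_mul (fun t => g t) (fun t => t) q (by fun_prop) (by fun_prop),
      ← cfc_mul (fun t => g t * t) g q (by fun_prop) (by fun_prop)]
  have h9 : ‖d * q * d‖ ≤ 2 * δ := by
    rw [h8]
    apply norm_cfc_le (by positivity)
    intro t ht
    have ht0 := hspec t ht
    have e : g t * t * g t = t * (1 - f t * t * f t) := by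
      have : g t * g t = 1 - f t * t * f t := by
        simp only [hg]
        exact Real.mul_self_sqrt (by linarith [hle1 t ht0])
      rw [← this]; ring
    rw [e]
    have e' : f t * t * f t = (t / (t + δ)) ^ 2 := by
      simp only [hf, abs_of_nonneg ht0]
      have := Real.mul_self_sqrt ht0
      field_simp
      nlinarith
    rw [Real.norm_of_nonneg (mul_nonneg ht0 (by linarith [hle1 t ht0])), e']
    have htd : 0 < t + δ := by positivity
    have : t * (1 - (t / (t + δ)) ^ 2) = t * (δ * (2 * t + δ)) / (t + δ) ^ 2 := by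
      field_simp; ring
    rw [this, div_le_iff₀ (by positivity)]
    have e10 : 2 * δ * (t + δ) ^ 2 - t * (δ * (2 * t + δ)) = 3 * δ ^ 2 * t + 2 * δ ^ 3 := by ring
    have e11 : 0 ≤ 3 * δ ^ 2 * t + 2 * δ ^ 3 := by positivity
    linarith
  calc ‖d * p * d‖ ≤ 2 * δ := h7.trans h9
    _ < ε := by rw [hδ]; linarith

end ordered

end Pool.Agent.Lib.MP_79262d_an
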