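import Mathlib

/-!
# Definitions: Cuntz subequivalence, actions on `C(X, D)`, the reduced crossed product
-/

open Filter Topology

namespace Pool.Agent.Lib.MP_79262d_an

/-- Positivity in a C*-algebra: `b = c* c` for some `c`. -/
def IsPos {B : Type*} [CStarAlgebra B] (b : B) : Prop := ∃ c : B, b = star c * c

/-- Cuntz subequivalence `a ≾ b` in `B`: there are `r_n` in `B` with `‖r_n b r_n* - a‖ → 0`. -/
def CuntzLE {B : Type*} [CStarAlgebra B] (a b : B) : Prop :=
  ∃ r : ℕ → B, Tendsto (fun n => ‖r n * b * star (r n) - a‖) atTop (𝓝 0)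

/-- Cuntz subequivalence `a ≾ b` in the subalgebra `S` of `B`: there are `r_n` in `S` with
`‖r_n b r_n* - a‖ → 0`. -/
def CuntzLEIn {B : Type*} [CStarAlgebra B] (S : StarSubalgebra ℂ B) (a b : B) : Prop :=
  ∃ r : ℕ → B, (∀ n, r n ∈ S) ∧ Tendsto (fun n => ‖r n * b * star (r n) - a‖) atTop (𝓝 0)

/-- The C*-subalgebra of `A` generated by the set `S`. -/
noncomputable def cstarGen {A : Type*} [CStarAlgebra A] (S : Set A) : StarSubalgebra ℂ A :=
  (StarAlgebra.adjoin ℂ S).topologicalClosure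

/-- `D` is a simple C*-algebra: `D ≠ 0` and the only closed two-sided ideals are `0` and `D`. -/
def IsSimpleCStar (D : Type*) [CStarAlgebra D] : Prop :=
  Nontrivial D ∧ ∀ I : TwoSidedIdeal D, IsClosed (I : Set D) → I = ⊥ ∨ I = ⊤

/-- The group of automorphisms (bijective unital *-homomorphisms) of a C*-algebra `D`. -/
abbrev StarAut (D : Type*) [CStarAlgebra D] : Type _ := D ≃⋆ₐ[ℂ] D

/-- Actions of a discrete group `G` on a C*-algebra `B` by automorphisms. -/
abbrev CStarAction (G B : Type*) [Group G] [CStarAlgebra B] : Type _ := G →* StarAut B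

/-- Unital representations of a C*-algebra `B` on a Hilbert space `H`. -/
abbrev Rep (B H : Type*) [CStarAlgebra B] [NormedAddCommGroup H] [InnerProductSpace ℂ H]
    [CompleteSpace H] : Type _ := B →⋆ₐ[ℂ] (H →L[ℂ] H)

/-- Essential freeness of an action of `G` on `X`. -/
def EssentiallyFree (G X : Type*) [Group G] [TopologicalSpace X] [MulAction G X] : Prop :=
  ∀ S : Finset G, (1 : G) ∉ S → Dense {x : X | ∀ g ∈ S, g • x ≠ x}

/-- A set of automorphisms of `D` is pseudoperiodic: for every nonzero positive `a` there is a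
nonzero positive `b` with `b ≾ a` and `b ≾ σ(a)` for all `σ` in the set. -/
def Pseudoperiodic {D : Type*} [CStarAlgebra D] (S : Set (StarAut D)) : Prop :=
  ∀ a : D, IsPos a → a ≠ 0 →
    ∃ b : D, IsPos b ∧ b ≠ 0 ∧ CuntzLE b a ∧ ∀ σ ∈ S, CuntzLE b (σ a)

section overX
variable {G X D : Type*} [Group G] [TopologicalSpace X] [CompactSpace X] [MulAction G X]
  [CStarAlgebra D]

/-- The action `α` of `G` on `C(X, D)` lies over the action of `G` on `X`, with fibre
automorphisms `β g x` of `D`: `α_g(a)(x) = β_{g,x}(a(g⁻¹x))`. -/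
def LiesOver (α : CStarAction G C(X, D)) (β : G → X → StarAut D) : Prop :=
  (∀ g d, Continuous fun x => β g x d) ∧ ∀ g a x, α g a x = β g x (a (g⁻¹ • x))

/-- The embedding of real-valued functions into `C(X, D)`: `f ↦ f ⊗ 1_D`. -/
noncomputable def scal (D : Type*) [CStarAlgebra D] {X : Type*} [TopologicalSpace X]
    (f : C(X, ℝ)) : C(X, D) :=
  ⟨fun x => ((f x : ℝ) : ℂ) • (1 : D), by fun_prop⟩

end overX

/-! ### The reduced crossed product -/

section reg

/-- The Hilbert space `ℓ²(G, H)`. -/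
abbrev Ell2 (G H : Type*) [NormedAddCommGroup H] : Type _ := lp (fun _ : G => H) 2

section monomial
variable {G H : Type*} [NormedAddCommGroup H] [InnerProductSpace ℂ H]

omit [InnerProductSpace ℂ H] in
lemma summable_sq (ξ : Ell2 G H) : Summable fun g => ‖ξ g‖ ^ (2 : ENNReal).toReal :=
  (memℓp_gen_iff (by norm_num)).mp (lp.memℓp ξ)

lemma monomial_le (σ : G ≃ G) (T : G → (H →L[ℂ] H)) {C : ℝ}
    (hT : ∀ g, ‖T g‖ ≤ C) (ξ : Ell2 G H) (g : G) :
    ‖T g (ξ (σ g))‖ ^ (2 : ENNReal).toReal ≤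
      C ^ (2 : ENNReal).toReal * ‖ξ (σ g)‖ ^ (2 : ENNReal).toReal := by
  have hC : 0 ≤ C := (norm_nonneg _).trans (hT g)
  rw [← Real.mul_rpow hC (norm_nonneg _)]
  exact Real.rpow_le_rpow (norm_nonneg _) ((T g).le_of_opNorm_le (hT g) _) (by norm_num)

lemma memlp_monomial (σ : G ≃ G) (T : G → (H →L[ℂ] H)) {C : ℝ}
    (hT : ∀ g, ‖T g‖ ≤ C) (ξ : Ell2 G H) : Memℓp (fun g => T g (ξ (σ g))) 2 := by
  rw [memℓp_gen_iff (by norm_num)]
  exact Summable.of_nonneg_of_le (fun g => by positivity) (monomial_le σ T hT ξ)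
    ((σ.summable_iff.mpr (summable_sq ξ)).mul_left (C ^ (2 : ENNReal).toReal))

/-- The linear map `(W ξ)(g) = T_g (ξ (σ g))` on `ℓ²(G, H)`. -/
noncomputable def monomialLin (σ : G ≃ G) (T : G → (H →L[ℂ] H)) (C : ℝ)
    (hT : ∀ g, ‖T g‖ ≤ C) : Ell2 G H →ₗ[ℂ] Ell2 G H where
  toFun ξ := ⟨fun g => T g (ξ (σ g)), memlp_monomial σ T hT ξ⟩
  map_add' ξ η := by
    ext g
    show T g ((ξ + η : Ell2 G H) (σ g)) = T g (ξ (σ g)) + T g (η (σ g))
    rw [lp.coeFn_add, Pi.add_apply, map_add]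
  map_smul' c ξ := by
    ext g
    show T g ((c • ξ : Ell2 G H) (σ g)) = c • T g (ξ (σ g))
    rw [lp.coeFn_smul, Pi.smul_apply, map_smul]

lemma monomialLin_norm_le (σ : G ≃ G) (T : G → (H →L[ℂ] H)) (C : ℝ) (hC : 0 ≤ C)
    (hT : ∀ g, ‖T g‖ ≤ C) (ξ : Ell2 G H) : ‖monomialLin σ T C hT ξ‖ ≤ C * ‖ξ‖ := by
  have h2 : 0 < (2 : ENNReal).toReal := by norm_num
  have h3 : Summable fun g => ‖ξ (σ g)‖ ^ (2 : ENNReal).toReal :=
    σ.summable_iff.mpr (summable_sq ξ)
  refine lp.norm_le_of_tsum_le h2 (mul_nonneg hC (norm_nonneg _)) ?_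
  have h4 : ∀ g, ‖(monomialLin σ T C hT ξ : G → H) g‖ ^ (2 : ENNReal).toReal ≤
      C ^ (2 : ENNReal).toReal * ‖ξ (σ g)‖ ^ (2 : ENNReal).toReal := monomial_le σ T hT ξ
  calc ∑' g, ‖(monomialLin σ T C hT ξ : G → H) g‖ ^ (2 : ENNReal).toReal
      ≤ ∑' g, C ^ (2 : ENNReal).toReal * ‖ξ (σ g)‖ ^ (2 : ENNReal).toReal :=
        Summable.tsum_le_tsum h4
          (Summable.of_nonneg_of_le (fun g => by positivity) h4 (h3.mul_left _))
          (h3.mul_left _)
    _ = C ^ (2 : ENNReal).toReal * ∑' g, ‖ξ g‖ ^ (2 : ENNReal).toReal := by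
        rw [tsum_mul_left]
        congr 1
        exact σ.tsum_eq fun g => ‖ξ g‖ ^ (2 : ENNReal).toReal
    _ = (C * ‖ξ‖) ^ (2 : ENNReal).toReal := by
        rw [Real.mul_rpow hC (norm_nonneg _), lp.norm_rpow_eq_tsum h2]

/-- The bounded operator `(W ξ)(g) = T_g (ξ (σ g))` on `ℓ²(G, H)`, for a permutation `σ` of `G`
and a bounded family `T` of operators on `H`. -/
noncomputable def monomialOp (σ : G ≃ G) (T : G → (H →L[ℂ] H)) (C : ℝ) (hC : 0 ≤ C)
    (hT : ∀ g, ‖T g‖ ≤ C) : Ell2 G H →L[ℂ] Ell2 G H :=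
  LinearMap.mkContinuous (monomialLin σ T C hT) C (monomialLin_norm_le σ T C hC hT)

lemma monomialOp_apply (σ : G ≃ G) (T : G → (H →L[ℂ] H)) (C : ℝ) (hC : 0 ≤ C)
    (hT : ∀ g, ‖T g‖ ≤ C) (ξ : Ell2 G H) (g : G) :
    (monomialOp σ T C hC hT ξ : G → H) g = T g (ξ (σ g)) := rfl

end monomial

/-- The Hilbert space `ℓ²(G, H)`, with Mathlib's Hilbert space structure. -/
def HEll2 (G H : Type*) [NormedAddCommGroup H] : Type _ := Ell2 G H

noncomputable instance instHEll2a (G H : Type*) [NormedAddCommGroup H] :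
    NormedAddCommGroup (HEll2 G H) := (lp.normedAddCommGroup : NormedAddCommGroup (Ell2 G H))

noncomputable instance instHEll2b (G H : Type*) [NormedAddCommGroup H] [InnerProductSpace ℂ H] :
    InnerProductSpace ℂ (HEll2 G H) :=
  (lp.instInnerProductSpace : InnerProductSpace ℂ (Ell2 G H))

instance instHEll2c (G H : Type*) [NormedAddCommGroup H] [InnerProductSpace ℂ H]
    [CompleteSpace H] : CompleteSpace (HEll2 G H) := (lp.completeSpace : CompleteSpace (Ell2 G H))

/-- The C*-algebra `L(K)` of bounded operators on the Hilbert space `K`. -/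
def BddOp (K : Type*) [NormedAddCommGroup K] [InnerProductSpace ℂ K] : Type _ := K →L[ℂ] K

/-- The C*-algebra structure of `L(K)` is Mathlib's one. -/
noncomputable instance instBddOp (K : Type*) [NormedAddCommGroup K] [InnerProductSpace ℂ K]
    [CompleteSpace K] : CStarAlgebra (BddOp K) :=
  (instCStarAlgebraContinuousLinearMapComplexIdOfCompleteSpace : CStarAlgebra (K →L[ℂ] K))

/-- The C*-algebra `L(ℓ²(G, H))` of bounded operators on `ℓ²(G, H)`. -/
abbrev BddEll2 (G H : Type*) [NormedAddCommGroup H] [InnerProductSpace ℂ H] : Type _ :=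
  BddOp (HEll2 G H)

variable {G H : Type*} [Group G] [NormedAddCommGroup H] [InnerProductSpace ℂ H]

/-- The translation operators `(λ_h ξ)(g) = ξ(h⁻¹ g)` on `ℓ²(G, H)`. -/
noncomputable def transOp (h : G) : BddEll2 G H :=
  monomialOp (Equiv.mulLeft h⁻¹) (fun _ => ContinuousLinearMap.id ℂ H) 1 zero_le_one
    (fun _ => ContinuousLinearMap.norm_id_le)

variable [CompleteSpace H] {B : Type*} [CStarAlgebra B]

/-- The operators `(π_α(b) ξ)(g) = π(α_{g⁻¹}(b)) ξ(g)` on `ℓ²(G, H)`. -/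
noncomputable def regOp (α : CStarAction G B) (π : Rep B H) (b : B) :
    BddEll2 G H :=
  monomialOp (Equiv.refl G) (fun g => π (α g⁻¹ b)) ‖b‖ (norm_nonneg _)
    (fun g => (NonUnitalStarAlgHom.norm_apply_le π _).trans
      (NonUnitalStarAlgHom.norm_apply_le (α g⁻¹) b))

/-- The reduced crossed product `C*_r(G, B, α)`: the closed *-subalgebra of `L(ℓ²(G, H))`
generated by the regular covariant representation induced from the representation `π` of `B` on
`H` (which is taken to be faithful). It contains the copy `regOp α π b` of each `b` in `B`. -/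
noncomputable def redCrossed (α : CStarAction G B) (π : Rep B H) :
    StarSubalgebra ℂ (BddEll2 G H) :=
  cstarGen (Set.range (regOp α π) ∪ Set.range transOp)

/-- Cuntz subequivalence `b ≾ a` in the reduced crossed product, for `b` and `a` in `B`. -/
def CrossedLE (α : CStarAction G B) (π : Rep B H) (b a : B) : Prop :=
  CuntzLEIn (redCrossed α π) (regOp α π b) (regOp α π a)

end reg

/-- The conclusion of Q1: for every nonzero positive `a` in `C(X, D)` there is a nonzero `f ≥ 0`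
in `C(X)` with `f ≾ a` in the reduced crossed product. -/
def HasScalarMinorants {G X D H : Type*} [Group G] [TopologicalSpace X] [CompactSpace X]
    [CStarAlgebra D] [NormedAddCommGroup H] [InnerProductSpace ℂ H] [CompleteSpace H]
    (α : CStarAction G C(X, D)) (π : Rep C(X, D) H) : Prop :=
  ∀ a : C(X, D), IsPos a → a ≠ 0 →
    ∃ f : C(X, ℝ), (∀ x, 0 ≤ f x) ∧ f ≠ 0 ∧ CrossedLE α π (scal D f) a

end Pool.Agent.Lib.MP_79262d_an
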