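import Pool.Agent.Lib.MP_79262d_an.Crossed

open Filter Topology
open scoped Matrix.Norms.L2Operator

namespace Pool.Agent.Lib.MP_79262d_an

section trivialG
variable {G H : Type*} [Group G] [Subsingleton G] [NormedAddCommGroup H] [InnerProductSpace ℂ H]
  [CompleteSpace H] {B : Type*} [CStarAlgebra B]

lemma cuntzLE_of_range {A : Type*} [CStarAlgebra A] (φ : B →⋆ₐ[ℂ] A)
    (hφ : Function.Injective φ) {S : StarSubalgebra ℂ A} (hS : S ≤ φ.range) {b a : B}
    (h : CuntzLEIn S (φ b) (φ a)) : CuntzLE b a := by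
  obtain ⟨r, hrS, hr⟩ := h
  have h1 : ∀ n, ∃ s : B, φ s = r n := fun n => hS (hrS n)
  choose s hs using h1
  refine ⟨s, ?_⟩
  have hiso : Isometry φ := NonUnitalStarAlgHom.isometry φ hφ
  have hn : ∀ y : B, ‖φ y‖ = ‖y‖ := by
    intro y
    have := hiso.dist_eq y 0
    rwa [map_zero, dist_zero_right, dist_zero_right] at this
  refine hr.congr fun n => ?_
  rw [← hn, map_sub, map_mul, map_mul, map_star, hs]

/-- For the trivial group, Cuntz subequivalence in the crossed product is the one in `B`. -/
lemma cuntzLE_of_trivial (α : CStarAction G B) (π : Rep B H)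
    (hπ : Function.Injective π) {b a : B}
    (h : CrossedLE α π b a) :
    CuntzLE b a := by
  classical
  exact cuntzLE_of_range (regHomB α π) (regHomB_injective α π hπ) (redCrossed_le_range α π hπ) h

end trivialG

/-- The C*-algebra of complex `2 × 2` matrices. -/
abbrev M2 : Type := Matrix (Fin 2) (Fin 2) ℂ

lemma cuntzLE_eval {X D : Type*} [TopologicalSpace X] [CompactSpace X] [CStarAlgebra D]
    {b a : C(X, D)} (h : CuntzLE b a) (x : X) : CuntzLE (b x) (a x) := by
  obtain ⟨r, hr⟩ := h
  refine ⟨fun n => r n x, squeeze_zero (fun n => norm_nonneg _) (fun n => ?_) hr⟩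
  exact (r n * a * star (r n) - b).norm_coe_le_norm x

lemma cuntzLE_refl {B : Type*} [CStarAlgebra B] (a : B) : CuntzLE a a :=
  ⟨fun _ => 1, by simp⟩

lemma not_cuntzLE_M2 {c : ℂ} (hc : c ≠ 0) :
    ¬ CuntzLE (c • (1 : M2)) (Matrix.single 0 0 1 : M2) := by
  rintro ⟨r, hr⟩
  have h1 : Tendsto (fun n => r n * Matrix.single 0 0 1 * star (r n)) atTop
      (𝓝 (c • (1 : M2))) := tendsto_iff_norm_sub_tendsto_zero.mpr hr
  have hcont : Continuous fun A : M2 => A.det := Continuous.matrix_det continuous_id
  have h2 := (hcont.tendsto (c • (1 : M2))).comp h1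
  have h3 : ∀ n, (fun A : M2 => A.det) (r n * Matrix.single 0 0 1 * star (r n)) = 0 := by
    intro n
    have : (Matrix.single 0 0 1 : M2).det = 0 := by
      simp [Matrix.det_fin_two, Matrix.single]
    simp only [Matrix.det_mul, this, mul_zero, zero_mul]
  have h4 : Tendsto (fun _ : ℕ => (0 : ℂ)) atTop (𝓝 ((c • (1 : M2)).det)) := by
    refine h2.congr h3
  have h5 := tendsto_nhds_unique h4 tendsto_const_nhds
  rw [Matrix.det_smul, Matrix.det_one, mul_one] at h5
  simp [hc] at h5

lemma simple_M2 : IsSimpleCStar M2 := by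
  refine ⟨inferInstance, fun I _ => ?_⟩
  have : IsSimpleRing M2 := inferInstance
  exact this.simple.eq_bot_or_eq_top I

/-- The degenerate case of Q1 with `X` a point. -/
theorem finite_counterexample :
    MulAction.IsMinimal Unit Unit ∧ EssentiallyFree Unit Unit ∧ IsSimpleCStar M2 ∧
    ∃ (α : CStarAction Unit C(Unit, M2)) (β : Unit → Unit → StarAut M2),
      LiesOver α β ∧ Pseudoperiodic {σ | ∃ g x, σ = β g x} ∧
        ∀ (H : Type*) [NormedAddCommGroup H] [InnerProductSpace ℂ H] [CompleteSpace H]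
          (π : Rep C(Unit, M2) H), Function.Injective π → ¬ HasScalarMinorants α π := by
  refine ⟨⟨fun x => ?_⟩, ?_, simple_M2, 1, fun _ _ => 1, ⟨fun g d => continuous_const, ?_⟩, ?_, ?_⟩
  · have : MulAction.orbit Unit x = Set.univ := by
      ext y
      simp only [Set.mem_univ, iff_true]
      exact ⟨(), Subsingleton.elim _ _⟩
    rw [this]
    exact dense_univ
  · intro S hS
    have : {x : Unit | ∀ g ∈ S, g • x ≠ x} = Set.univ := by
      ext x
      simp only [Set.mem_ofPred_eq, Set.mem_univ, iff_true]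
      intro g hg
      exact absurd hg hS
    rw [this]
    exact dense_univ
  · intro g a x
    rfl
  · intro a ha ha0
    refine ⟨a, ha, ha0, cuntzLE_refl a, ?_⟩
    rintro σ ⟨g, x, rfl⟩
    exact cuntzLE_refl a
  · intro H _ _ _ π hπ hconcl
    have hpos : IsPos (ContinuousMap.const Unit (Matrix.single 0 0 1 : M2)) := by
      refine ⟨ContinuousMap.const _ (Matrix.single 0 0 1), ?_⟩
      ext x i j
      simp [Matrix.star_eq_conjTranspose]
    have hne : ContinuousMap.const Unit (Matrix.single 0 0 1 : M2) ≠ 0 := by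
      intro h
      have := DFunLike.congr_fun h ()
      have h2 := congrFun (congrFun this 0) 0
      simp at h2
    obtain ⟨f, hf, hf0, h⟩ := hconcl _ hpos hne
    have h1 := cuntzLE_eval (cuntzLE_of_trivial _ π hπ h) ()
    have h2 : ((f () : ℝ) : ℂ) ≠ 0 := by
      intro h3
      apply hf0
      ext x
      exact_mod_cast h3
    exact not_cuntzLE_M2 h2 h1

end Pool.Agent.Lib.MP_79262d_an
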