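import Pool.Agent.Lib.MP_79262d_an.Cuntz

open Filter Topology

namespace Pool.Agent.Lib.MP_79262d_an

section
variable {D : Type*} [CStarAlgebra D]

/-- finite sums `∑ p b q` -/
def sandwich (b : D) : Set D :=
  {z | ∃ l : List (D × D), z = (l.map fun pq => pq.1 * b * pq.2).sum}

/-- the closed two-sided ideal generated by `b` -/
noncomputable def closedIdeal (b : D) : TwoSidedIdeal D :=
  TwoSidedIdeal.mk' (closure (sandwich b))
    (subset_closure ⟨[], by simp⟩)
    (fun {x y} hx hy => by
      refine map_mem_closure₂ continuous_add hx hy ?_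
      rintro a ⟨l, rfl⟩ c ⟨l', rfl⟩
      exact ⟨l ++ l', by simp⟩)
    (fun {x} hx => by
      refine map_mem_closure continuous_neg hx ?_
      rintro a ⟨l, rfl⟩
      refine ⟨l.map fun pq => (-pq.1, pq.2), ?_⟩
      rw [List.map_map]
      induction l with
      | nil => simp
      | cons h t ih => simp only [List.map_cons, List.sum_cons, neg_add, ih]; simp)
    (fun {x y} hy => by
      refine map_mem_closure (continuous_const_mul x) hy ?_
      rintro a ⟨l, rfl⟩
      refine ⟨l.map fun pq => (x * pq.1, pq.2), ?_⟩
      rw [List.map_map]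
      induction l with
      | nil => simp
      | cons h t ih => simp only [List.map_cons, List.sum_cons, mul_add, ih]; simp [mul_assoc])
    (fun {x y} hx => by
      refine map_mem_closure (f := fun z => z * y) (continuous_mul_const y) hx ?_
      rintro a ⟨l, rfl⟩
      refine ⟨l.map fun pq => (pq.1, pq.2 * y), ?_⟩
      rw [List.map_map]
      induction l with
      | nil => simp
      | cons h t ih => simp only [List.map_cons, List.sum_cons, add_mul, ih]; simp [mul_assoc])

lemma mem_closedIdeal {b x : D} : x ∈ closedIdeal b ↔ x ∈ closure (sandwich b) := by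
  unfold closedIdeal
  rw [TwoSidedIdeal.mem_mk']

lemma one_mem_closure (hD : IsSimpleCStar D) {b : D} (hb : b ≠ 0) :
    (1 : D) ∈ closure (sandwich b) := by
  have hcl : IsClosed ((closedIdeal b : TwoSidedIdeal D) : Set D) := by
    have : ((closedIdeal b : TwoSidedIdeal D) : Set D) = closure (sandwich b) := by
      ext x
      exact mem_closedIdeal
    rw [this]
    exact isClosed_closure
  rcases hD.2 (closedIdeal b) hcl with h | h
  · exfalso
    have hmem : b ∈ closedIdeal b := by
      rw [mem_closedIdeal]
      exact subset_closure ⟨[(1, 1)], by simp⟩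
    rw [h] at hmem
    exact hb (by simpa using hmem)
  · rw [← mem_closedIdeal, h]
    trivial

variable [PartialOrder D] [StarOrderedRing D]

lemma sandwich_le {b : D} (hb : 0 ≤ b) (l : List (D × D)) :
    (l.map fun pq => pq.1 * b * pq.2).sum + star (l.map fun pq => pq.1 * b * pq.2).sum ≤
      ((l.flatMap fun pq => [pq.1, star pq.2]).map fun y => y * b * star y).sum := by
  induction l with
  | nil => simp
  | cons h t ih =>
    obtain ⟨p, q⟩ := h
    simp only [List.map_cons, List.sum_cons, List.flatMap_cons, List.map_append, List.sum_append,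
      star_add, List.map_nil, List.sum_nil, add_zero, star_star]
    have key : p * b * q + star (p * b * q) ≤ p * b * star p + star q * b * q := by
      have h0 : 0 ≤ (p - star q) * b * star (p - star q) :=
        star_right_conjugate_nonneg hb _
      have hbs : star b = b := (IsSelfAdjoint.of_nonneg hb).star_eq
      have e : (p - star q) * b * star (p - star q) =
          (p * b * star p + star q * b * q) - (p * b * q + star (p * b * q)) := by
        simp only [star_sub, star_star, star_mul, hbs]
        noncomm_ring
      rw [e] at h0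
      exact sub_nonneg.mp h0
    calc p * b * q + (List.map (fun pq => pq.1 * b * pq.2) t).sum +
          (star (p * b * q) + star (List.map (fun pq => pq.1 * b * pq.2) t).sum)
        = (p * b * q + star (p * b * q)) + ((List.map (fun pq => pq.1 * b * pq.2) t).sum +
          star (List.map (fun pq => pq.1 * b * pq.2) t).sum) := by abel
      _ ≤ (p * b * star p + star q * b * q) +
          (List.map (fun y => y * b * star y) (List.flatMap (fun pq => [pq.1, star pq.2]) t)).sum :=
          add_le_add key ih
      _ = _ := by abel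

/-- In a simple unital C*-algebra, `1 ≤ ∑ y b y*` for some finite family. -/
lemma exists_one_le (hD : IsSimpleCStar D) {b : D} (hb : 0 ≤ b) (hb0 : b ≠ 0) :
    ∃ (n : ℕ) (y : Fin n → D), 1 ≤ ∑ i, y i * b * star (y i) := by
  have h1 := one_mem_closure hD hb0
  obtain ⟨z, ⟨l, hl⟩, hz⟩ := Metric.mem_closure_iff.mp h1 (1 / 2) (by norm_num)
  rw [dist_eq_norm] at hz
  have h2 := sandwich_le hb l
  rw [← hl] at h2
  set h := (1 - z) + star (1 - z) with hh
  have hsa : IsSelfAdjoint h := by
    rw [hh, IsSelfAdjoint, star_add, star_star, add_comm]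
  have hn : ‖h‖ ≤ 1 := by
    calc ‖h‖ ≤ ‖1 - z‖ + ‖star (1 - z)‖ := norm_add_le _ _
      _ ≤ 1 := by rw [norm_star]; linarith
  have h3 : h ≤ 1 := by
    calc h ≤ algebraMap ℝ D ‖h‖ := hsa.le_algebraMap_norm_self
      _ ≤ algebraMap ℝ D 1 := by
          rw [← sub_nonneg, ← map_sub]
          have : (0 : ℝ) ≤ 1 - ‖h‖ := by linarith
          exact algebraMap_nonneg D this
      _ = 1 := map_one _
  have h4 : 1 ≤ z + star z := by
    have e : z + star z = 1 + (1 - h) := by rw [hh, star_sub, star_one]; abel
    rw [e]
    exact le_add_of_nonneg_right (sub_nonneg.mpr h3)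
  have h5 := h4.trans h2
  set l' := l.flatMap fun pq => [pq.1, star pq.2] with hl'
  refine ⟨l'.length, fun i => l'.get i, ?_⟩
  have e : (l'.map fun y => y * b * star y).sum = ∑ i : Fin l'.length,
      l'.get i * b * star (l'.get i) := by
    rw [← List.sum_ofFn]
    congr 1
    apply List.ext_get
    · simp
    · intro n h₁ h₂
      simp
  rw [← e]
  exact h5

/-- The local lower bound: near a nonzero positive element everything dominates a fixed nonzero
positive element. -/
lemma exists_local {a : D} (ha : 0 ≤ a) (ha0 : a ≠ 0) :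
    ∃ d : D, 0 ≤ d ∧ d ≠ 0 ∧ ∃ δ : ℝ, 0 < δ ∧
      ∀ a' : D, 0 ≤ a' → ‖a' - a‖ ≤ δ → CuntzLE d a' := by
  have hna : 0 < ‖a‖ := norm_pos_iff.mpr ha0
  set δ := ‖a‖ / 2 with hδ
  have hδ0 : 0 < δ := by positivity
  have hasa : IsSelfAdjoint a := IsSelfAdjoint.of_nonneg ha
  set g : ℝ → ℝ := fun t => max (t - δ) 0 with hg
  have hgc : Continuous g := by fun_prop
  set e := cfc g a with he
  have hesa : IsSelfAdjoint e := cfc_predicate g a
  have hspec : ∀ t ∈ spectrum ℝ a, 0 ≤ t := fun t ht => spectrum_nonneg_of_nonneg ha ht
  have haid : cfc (fun t : ℝ => t) a = a := cfc_id' ℝ a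
  have hee : e * e = cfc (fun t => g t * g t) a := by
    rw [he, ← cfc_mul g g a (by fun_prop) (by fun_prop)]
  have heae : e * a * e = cfc (fun t => g t * t * g t) a := by
    conv_lhs => rw [← haid]
    rw [he, ← cfc_mul (fun t => g t) (fun t => t) a (by fun_prop) (by fun_prop),
      ← cfc_mul (fun t => g t * t) g a (by fun_prop) (by fun_prop)]
  have hee0 : 0 ≤ e * e := by
    have := star_mul_self_nonneg e
    rwa [hesa.star_eq] at this
  have hmain : δ • (e * e) ≤ e * a * e := by
    rw [← sub_nonneg, heae, hee, ← cfc_smul δ (fun t => g t * g t) a (by fun_prop),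
      ← cfc_sub (fun t => g t * t * g t) (fun t => δ • (g t * g t)) a (by fun_prop)
        (by fun_prop)]
    apply cfc_nonneg
    intro t ht
    have ht0 := hspec t ht
    have h1 : g t * t * g t - δ • (g t * g t) = (g t * g t) * (t - δ) := by
      rw [smul_eq_mul]; ring
    rw [h1]
    by_cases htδ : δ ≤ t
    · exact mul_nonneg (mul_self_nonneg _) (by linarith)
    · have : g t = 0 := by
        simp only [hg]
        apply max_eq_right
        push Not at htδ
        linarith
      rw [this]; simp
  have hne : e * e ≠ 0 := by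
    intro h0
    have he0 : e = 0 := by
      have : ‖star e * e‖ = ‖e‖ * ‖e‖ := CStarRing.norm_star_mul_self
      rw [hesa.star_eq, h0, norm_zero] at this
      have h2 : ‖e‖ = 0 := by
        by_contra hcon
        have : 0 < ‖e‖ := lt_of_le_of_ne (norm_nonneg _) (Ne.symm hcon)
        nlinarith
      exact norm_eq_zero.mp h2
    have h3 : ‖a‖ ≤ δ := by
      have e1 : a = cfc (fun t => t - g t) a := by
        rw [cfc_sub (fun t => t) g a (by fun_prop) (by fun_prop), haid, ← he, he0, sub_zero]
      rw [e1]
      apply norm_cfc_le hδ0.le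
      intro t ht
      have ht0 := hspec t ht
      simp only [hg, Real.norm_eq_abs]
      rw [abs_le]
      constructor
      · by_cases htδ : δ ≤ t
        · rw [max_eq_left (by linarith)]; linarith
        · rw [max_eq_right (by linarith)]; linarith
      · by_cases htδ : δ ≤ t
        · rw [max_eq_left (by linarith)]; linarith
        · rw [max_eq_right (by linarith)]; linarith
    rw [hδ] at h3
    linarith
  refine ⟨(δ / 2) • (e * e), smul_nonneg (by positivity) hee0, ?_, δ / 2, by positivity, ?_⟩
  · intro h
    rcases smul_eq_zero.mp h with h | h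
    · linarith
    · exact hne h
  · intro a' ha' hclose
    have hsa : IsSelfAdjoint (a - a') := hasa.sub (IsSelfAdjoint.of_nonneg ha')
    have h1 : a - a' ≤ algebraMap ℝ D (δ / 2) := by
      calc a - a' ≤ algebraMap ℝ D ‖a - a'‖ := hsa.le_algebraMap_norm_self
        _ ≤ algebraMap ℝ D (δ / 2) := by
            rw [← sub_nonneg, ← map_sub]
            rw [norm_sub_rev] at hclose
            have : (0 : ℝ) ≤ δ / 2 - ‖a - a'‖ := by linarith
            exact algebraMap_nonneg D this
    have h2 : e * (a - a') * e ≤ e * algebraMap ℝ D (δ / 2) * e := by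
      have := star_left_conjugate_le_conjugate h1 e
      rwa [hesa.star_eq] at this
    have h3 : e * algebraMap ℝ D (δ / 2) * e = (δ / 2) • (e * e) := by
      rw [← Algebra.commutes, mul_assoc, Algebra.smul_def]
    have h4 : e * a * e - (δ / 2) • (e * e) ≤ e * a' * e := by
      rw [h3] at h2
      have e5 : e * (a - a') * e = e * a * e - e * a' * e := by noncomm_ring
      rw [e5] at h2
      rw [sub_le_iff_le_add] at h2 ⊢
      rw [add_comm (e * a' * e)]
      exact h2
    have h5 : (δ / 2) • (e * e) ≤ e * a' * e := by
      calc (δ / 2) • (e * e) = δ • (e * e) - (δ / 2) • (e * e) := by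
            rw [← sub_smul]; congr 1; ring
        _ ≤ e * a * e - (δ / 2) • (e * e) := sub_le_sub_right hmain _
        _ ≤ _ := h4
    have h6 : CuntzLE ((δ / 2) • (e * e)) (e * a' * e) :=
      cuntzLE_of_le (smul_nonneg (by positivity) hee0) h5
    refine cuntzLE_trans h6 ?_
    have h7 := cuntzLE_conj a' e
    rwa [hesa.star_eq] at h7

end

end Pool.Agent.Lib.MP_79262d_an
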